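import Pool.Agent.K1H12.SW.Stm

set_option autoImplicit false

namespace Pool.Agent.K1H42.HE

open Pool.Agent.K1H12.SW

variable {R : Type} [Ring R]

/-- finitely generated free -/
def FR (R : Type) [Ring R] (P : Type) [AddCommGroup P] [Module R P] : Prop :=
  Module.Finite R P ∧ Module.Free R P

theorem sf_of_fr (P : Type) [AddCommGroup P] [Module R P] (h : FR R P) : SF R P := by
  obtain ⟨h1, h2⟩ := h
  let b := Module.Free.chooseBasis R P
  let e : Module.Free.ChooseBasisIndex R P ≃ Fin (Fintype.card (Module.Free.ChooseBasisIndex R P)) :=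
    Fintype.equivFin _
  refine ⟨0, Fintype.card (Module.Free.ChooseBasisIndex R P), ⟨?_⟩⟩
  have e1 : P ≃ₗ[R] (Fin (Fintype.card (Module.Free.ChooseBasisIndex R P)) → R) :=
    (b.reindex e).equivFun
  exact (LinearEquiv.prodUnique (R := R) (M := P) (M₂ := (Fin 0 → R))).trans e1

theorem fr_pi (a : ℕ) : FR R (Fin a → R) := ⟨inferInstance, inferInstance⟩

theorem fr_sub (P : Type) [AddCommGroup P] [Module R P] [Subsingleton P] : FR R P :=
  ⟨inferInstance, Module.Free.of_subsingleton R P⟩

theorem pr_of_fr (P : Type) [AddCommGroup P] [Module R P] (h : FR R P) : PR R P := by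
  obtain ⟨h1, h2⟩ := h
  exact ⟨h1, inferInstance⟩

/-- data of a resolution sequence -/
def Seq (R : Type) [Ring R] (C : ∀ (P : Type) [AddCommGroup P] [Module R P], Prop)
    (n : ℕ) (M : Type) [AddCommGroup M] [Module R M] : Prop :=
  ∃ (P : ℕ → Type) (_ : ∀ i, AddCommGroup (P i)) (_ : ∀ i, Module R (P i))
    (d : ∀ i, P (i + 1) →ₗ[R] P i) (ε : P 0 →ₗ[R] M),
    (∀ i, C (P i)) ∧ (∀ i, n < i → Subsingleton (P i)) ∧
    Function.Surjective ε ∧ LinearMap.range (d 0) = LinearMap.ker ε ∧
    (∀ i, LinearMap.range (d (i + 1)) = LinearMap.ker (d i))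

theorem res_of_seq (C : ∀ (P : Type) [AddCommGroup P] [Module R P], Prop)
    (hC : ∀ (P : Type) [AddCommGroup P] [Module R P], Subsingleton P → C P) (n : ℕ) :
    ∀ (M : Type) [AddCommGroup M] [Module R M], Seq R C n M → Res R C (n + 1) M := by
  induction n with
  | zero =>
    intro M _ _ h
    obtain ⟨P, i1, i2, d, ε, h1, h2, h3, h4, h5⟩ := h
    refine ⟨P 0, i1 0, i2 0, ε, h1 0, h3, ?_⟩
    show C (LinearMap.ker ε)
    apply hC
    have := h2 1 (by norm_num)
    rw [← h4]
    constructor
    rintro ⟨x, y, rfl⟩ ⟨x', y', rfl⟩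
    have : y = y' := Subsingleton.elim _ _
    subst this
    rfl
  | succ n ih =>
    intro M _ _ h
    obtain ⟨P, i1, i2, d, ε, h1, h2, h3, h4, h5⟩ := h
    refine ⟨P 0, i1 0, i2 0, ε, h1 0, h3, ?_⟩
    apply ih
    have hk : ∀ c : P 1, d 0 c ∈ LinearMap.ker ε := by
      intro c
      rw [← h4]
      exact ⟨c, rfl⟩
    refine ⟨fun i => P (i + 1), fun i => i1 (i + 1), fun i => i2 (i + 1), fun i => d (i + 1),
      LinearMap.codRestrict _ (d 0) hk, fun i => h1 (i + 1), fun i hi => h2 (i + 1) (by omega),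
      ?_, ?_, fun i => h5 (i + 1)⟩
    · rintro ⟨x, hx⟩
      rw [← h4] at hx
      obtain ⟨y, hy⟩ := hx
      exact ⟨y, Subtype.ext hy⟩
    · rw [LinearMap.ker_codRestrict]
      exact h5 0

theorem res_fr_iso (n : ℕ) : ∀ (M N : Type) [AddCommGroup M] [Module R M] [AddCommGroup N]
    [Module R N], (M ≃ₗ[R] N) → Res R (fun P _ _ => FR R P) n M →
    Res R (fun P _ _ => FR R P) n N := by
  induction n with
  | zero =>
    intro M N _ _ _ _ e h
    obtain ⟨h1, h2⟩ := h
    exact ⟨Module.Finite.equiv e, Module.Free.of_equiv e⟩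
  | succ n ih =>
    intro M N _ _ _ _ e h
    obtain ⟨P, i1, i2, f, h1, h2, h3⟩ := h
    refine ⟨P, i1, i2, e.toLinearMap ∘ₗ f, h1, e.surjective.comp h2, ?_⟩
    have hk : LinearMap.ker f = LinearMap.ker (e.toLinearMap ∘ₗ f) := by
      rw [LinearEquiv.ker_comp]
    exact ih _ _ (LinearEquiv.ofEq _ _ hk) h3

theorem res_fr_prod (n a : ℕ) (K : Type) [AddCommGroup K] [Module R K]
    (h : Res R (fun P _ _ => FR R P) (n + 1) K) :
    Res R (fun P _ _ => FR R P) (n + 1) (K × (Fin a → R)) := by
  obtain ⟨P, i1, i2, f, h1, h2, h3⟩ := h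
  obtain ⟨h1a, h1b⟩ := h1
  refine ⟨P × (Fin a → R), inferInstance, inferInstance, LinearMap.prodMap f LinearMap.id,
    ⟨inferInstance, inferInstance⟩, ?_, ?_⟩
  · rintro ⟨x, y⟩
    obtain ⟨z, hz⟩ := h2 x
    exact ⟨(z, y), by simp [hz]⟩
  · refine res_fr_iso n (LinearMap.ker f) _ ?_ h3
    refine
      { toFun := fun x => ⟨(x.1, 0), by
          have := x.2
          rw [LinearMap.mem_ker] at this ⊢
          simp [this]⟩
        invFun := fun y => ⟨y.1.1, by
          have := y.2
          rw [LinearMap.mem_ker, LinearMap.prodMap_apply, Prod.mk_eq_zero] at this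
          exact this.1⟩
        map_add' := ?_
        map_smul' := ?_
        left_inv := ?_
        right_inv := ?_ }
    · intro x y
      apply Subtype.ext
      ext <;> simp
    · intro r x
      apply Subtype.ext
      ext <;> simp
    · intro x
      rfl
    · intro y
      apply Subtype.ext
      have := y.2
      rw [LinearMap.mem_ker, LinearMap.prodMap_apply, Prod.mk_eq_zero] at this
      apply Prod.ext
      · rfl
      · exact this.2.symm

theorem res_fr_of_sf (n : ℕ) : ∀ (M : Type) [AddCommGroup M] [Module R M],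
    Res R (fun P _ _ => SF R P) n M → Res R (fun P _ _ => FR R P) (n + 1) M := by
  induction n with
  | zero =>
    intro M _ _ h
    obtain ⟨a, b, ⟨e⟩⟩ := h
    refine ⟨(Fin b → R), inferInstance, inferInstance,
      LinearMap.fst R M (Fin a → R) ∘ₗ e.symm.toLinearMap, fr_pi b, ?_, ?_⟩
    · intro x
      exact ⟨e (x, 0), by simp⟩
    · refine res_fr_iso 0 (Fin a → R) _ ?_ (fr_pi a)
      refine
        { toFun := fun x => ⟨e (0, x), by
            rw [LinearMap.mem_ker]
            simp⟩
          invFun := fun y => (e.symm y.1).2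
          map_add' := ?_
          map_smul' := ?_
          left_inv := ?_
          right_inv := ?_ }
      · intro x y
        apply Subtype.ext
        show e (0, x + y) = e (0, x) + e (0, y)
        rw [← map_add]
        simp
      · intro r x
        apply Subtype.ext
        show e (0, r • x) = r • e (0, x)
        rw [← map_smul]
        simp
      · intro x
        simp
      · intro y
        apply Subtype.ext
        show e (0, (e.symm y.1).2) = y.1
        have hy := y.2
        rw [LinearMap.mem_ker] at hy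
        have : (e.symm y.1).1 = 0 := hy
        rw [← this]
        simp
  | succ n ih =>
    intro M _ _ h
    obtain ⟨P, i1, i2, f, h1, h2, h3⟩ := h
    obtain ⟨a, b, ⟨e⟩⟩ := h1
    refine ⟨(Fin b → R), inferInstance, inferInstance,
      f ∘ₗ LinearMap.fst R P (Fin a → R) ∘ₗ e.symm.toLinearMap, fr_pi b, ?_, ?_⟩
    · intro x
      obtain ⟨z, hz⟩ := h2 x
      exact ⟨e (z, 0), by simp [hz]⟩
    · refine res_fr_iso (n + 1) (LinearMap.ker f × (Fin a → R)) _ ?_ (res_fr_prod n a _ (ih _ h3))
      refine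
        { toFun := fun x => ⟨e (x.1.1, x.2), by
            have := x.1.2
            rw [LinearMap.mem_ker] at this ⊢
            simp [this]⟩
          invFun := fun y => (⟨(e.symm y.1).1, by
            have hy := y.2
            rw [LinearMap.mem_ker] at hy ⊢
            exact hy⟩, (e.symm y.1).2)
          map_add' := ?_
          map_smul' := ?_
          left_inv := ?_
          right_inv := ?_ }
      · intro x y
        apply Subtype.ext
        show e ((x + y).1.1, (x + y).2) = e (x.1.1, x.2) + e (y.1.1, y.2)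
        rw [← map_add]
        rfl
      · intro r x
        apply Subtype.ext
        show e ((r • x).1.1, (r • x).2) = r • e (x.1.1, x.2)
        rw [← map_smul]
        rfl
      · intro x
        apply Prod.ext
        · apply Subtype.ext
          simp
        · simp
      · intro y
        apply Subtype.ext
        show e ((e.symm y.1).1, (e.symm y.1).2) = y.1
        simp

section cons

variable (P : Type) [AddCommGroup P] [Module R P] (Q : ℕ → Type) [∀ i, AddCommGroup (Q i)]
  [∀ i, Module R (Q i)]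

/-- prepend -/
def CP (P : Type) (Q : ℕ → Type) : ℕ → Type
  | 0 => P
  | i + 1 => Q i

instance CPgrp : ∀ i, AddCommGroup (CP P Q i)
  | 0 => inferInstanceAs (AddCommGroup P)
  | i + 1 => inferInstanceAs (AddCommGroup (Q i))

instance CPmod : ∀ i, Module R (CP P Q i)
  | 0 => inferInstanceAs (Module R P)
  | i + 1 => inferInstanceAs (Module R (Q i))

/-- prepend a differential -/
def CPd (e : Q 0 →ₗ[R] P) (d : ∀ i, Q (i + 1) →ₗ[R] Q i) : ∀ i, CP P Q (i + 1) →ₗ[R] CP P Q i
  | 0 => e
  | i + 1 => d i

end cons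

theorem seq_of_res (n : ℕ) : ∀ (M : Type) [AddCommGroup M] [Module R M],
    Res R (fun P _ _ => FR R P) n M → Seq R (fun P _ _ => FR R P) n M := by
  induction n with
  | zero =>
    intro M _ _ h
    refine ⟨CP M (fun _ => PUnit), inferInstance, inferInstance,
      CPd M (fun _ => PUnit) 0 (fun _ => 0), (LinearMap.id : M →ₗ[R] M), ?_, ?_, ?_, ?_, ?_⟩
    · rintro (_ | i)
      · exact h
      · exact (fr_sub PUnit : FR R PUnit)
    · rintro (_ | i) hi
      · omega
      · exact (inferInstance : Subsingleton PUnit)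
    · exact Function.surjective_id
    · show LinearMap.range (0 : PUnit →ₗ[R] M) = LinearMap.ker (LinearMap.id : M →ₗ[R] M)
      rw [LinearMap.range_zero, LinearMap.ker_id]
    · rintro (_ | i)
      · show LinearMap.range (0 : PUnit →ₗ[R] PUnit) = LinearMap.ker (0 : PUnit →ₗ[R] M)
        rw [LinearMap.range_zero, LinearMap.ker_zero]
        exact Subsingleton.elim _ _
      · show LinearMap.range (0 : PUnit →ₗ[R] PUnit) = LinearMap.ker (0 : PUnit →ₗ[R] PUnit)
        exact Subsingleton.elim _ _
  | succ n ih =>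
    intro M _ _ h
    obtain ⟨P, i1, i2, f, h1, h2, h3⟩ := h
    obtain ⟨Q, j1, j2, d, ε, k1, k2, k3, k4, k5⟩ := ih _ h3
    refine ⟨CP P Q, inferInstance, inferInstance,
      CPd P Q ((LinearMap.ker f).subtype ∘ₗ ε) d, f, ?_, ?_, h2, ?_, ?_⟩
    · rintro (_ | i)
      · exact h1
      · exact k1 i
    · rintro (_ | i) hi
      · omega
      · exact k2 i (by omega)
    · show LinearMap.range ((LinearMap.ker f).subtype ∘ₗ ε) = LinearMap.ker f
      rw [LinearMap.range_comp, LinearMap.range_eq_top.2 k3, Submodule.map_top,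
        Submodule.range_subtype]
    · rintro (_ | i)
      · show LinearMap.range (d 0) = LinearMap.ker ((LinearMap.ker f).subtype ∘ₗ ε)
        rw [LinearMap.ker_comp_of_ker_eq_bot _ (Submodule.ker_subtype _)]
        exact k4
      · exact k5 i

theorem res_mono {C C' : ∀ (P : Type) [AddCommGroup P] [Module R P], Prop}
    (hC : ∀ (P : Type) [AddCommGroup P] [Module R P], C P → C' P) (n : ℕ) :
    ∀ (M : Type) [AddCommGroup M] [Module R M], Res R C n M → Res R C' n M := by
  induction n with
  | zero =>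
    intro M _ _ h
    exact hC _ h
  | succ n ih =>
    intro M _ _ h
    obtain ⟨P, i1, i2, f, h1, h2, h3⟩ := h
    exact ⟨P, i1, i2, f, hC _ h1, h2, ih _ h3⟩

section triv

variable {G : Type} [Group G] {A : Type} [AddCommGroup A]

/-- the map of a resolution as a linear map -/
theorem exists_lin (P : Type) [AddCommGroup P] [Module (MonoidAlgebra ℤ G) P] (ε : P →+ A)
    (hε : ∀ (g : G) (x : P), ε (MonoidAlgebra.of ℤ G g • x) = ε x) :
    ∃ e : P →ₗ[MonoidAlgebra ℤ G] (Representation.trivial ℤ G A).asModule,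
      ∀ x, (Representation.trivial ℤ G A).asModuleEquiv (e x) = ε x := by
  set ρ := Representation.trivial ℤ G A with hρ
  have key : ∀ (r : MonoidAlgebra ℤ G) (x : P),
      ρ.asModuleEquiv.symm (ε (r • x)) = r • ρ.asModuleEquiv.symm (ε x) := by
    intro r
    refine MonoidAlgebra.induction_on (motive := fun r => ∀ x : P,
      ρ.asModuleEquiv.symm (ε (r • x)) = r • ρ.asModuleEquiv.symm (ε x)) r ?_ ?_ ?_
    · intro g x
      rw [hε, ← Representation.asModuleEquiv_symm_map_rho]
      simp [hρ]
    · intro r s hr hs x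
      rw [add_smul, map_add, map_add, hr, hs, add_smul]
    · intro n r hr x
      rw [smul_assoc, smul_assoc, ← hr, map_zsmul, map_zsmul]
  refine ⟨{ toFun := fun x => ρ.asModuleEquiv.symm (ε x), map_add' := ?_, map_smul' := key }, ?_⟩
  · intro x y
    rw [map_add, map_add]
  · intro x
    simp

theorem seq_of {C : ∀ (P : Type) [AddCommGroup P] [Module (MonoidAlgebra ℤ G) P], Prop}
    (P : ℕ → Type) [∀ i, AddCommGroup (P i)] [∀ i, Module (MonoidAlgebra ℤ G) (P i)]
    (d : ∀ i, P (i + 1) →ₗ[MonoidAlgebra ℤ G] P i) (ε : P 0 →+ A) (n : ℕ)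
    (hC : ∀ i, C (P i))
    (h1 : ∀ i, n < i → Subsingleton (P i))
    (h2 : ∀ (g : G) (x : P 0), ε (MonoidAlgebra.of ℤ G g • x) = ε x)
    (h3 : Function.Surjective ε)
    (h4 : ∀ x : P 0, ε x = 0 ↔ x ∈ LinearMap.range (d 0))
    (h5 : ∀ i, LinearMap.range (d (i + 1)) = LinearMap.ker (d i)) :
    Seq (MonoidAlgebra ℤ G) C n (Representation.trivial ℤ G A).asModule := by
  obtain ⟨e, he⟩ := exists_lin (P 0) ε h2
  refine ⟨P, inferInstance, inferInstance, d, e, hC, h1, ?_, ?_, h5⟩
  · intro y
    obtain ⟨x, hx⟩ := h3 ((Representation.trivial ℤ G A).asModuleEquiv y)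
    refine ⟨x, ?_⟩
    apply (Representation.trivial ℤ G A).asModuleEquiv.injective
    rw [he, hx]
  · ext x
    rw [← h4, LinearMap.mem_ker, ← he]
    constructor
    · intro h
      apply (Representation.trivial ℤ G A).asModuleEquiv.injective
      rw [h, map_zero]
    · intro h
      rw [h, map_zero]

end triv

theorem t_DEF : S_DEF := by
  intro G _ A _
  refine ⟨?_, ?_, ?_⟩
  · rintro ⟨P, i1, i2, d, ε, n, h1, h2, h3, h4, h5, h6, h7⟩
    refine ⟨n + 1, ?_⟩
    apply res_of_seq
    · intro Q _ _ hQ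
      exact pr_of_fr _ (fr_sub Q)
    · exact seq_of P d ε n (fun i => ⟨h1 i, h2 i⟩) h3 h4 h5 h6 h7
  · rintro ⟨P, i1, i2, d, ε, n, h1, h2, h3, h4, h5, h6, h7⟩
    refine ⟨n + 1, ?_⟩
    apply res_of_seq
    · intro Q _ _ hQ
      exact sf_of_fr _ (fr_sub Q)
    · exact seq_of P d ε n (fun i => sf_of_fr _ ⟨h1 i, h2 i⟩) h3 h4 h5 h6 h7
  · rintro ⟨n, h⟩
    obtain ⟨P, i1, i2, d, ε, k1, k2, k3, k4, k5⟩ := seq_of_res (n + 1) _ (res_fr_of_sf n _ h)
    refine ⟨P, i1, i2, d,
      ((Representation.trivial ℤ G A).asModuleEquiv : _ →+ A).comp ε.toAddMonoidHom, n + 1,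
      fun i => (k1 i).1, fun i => (k1 i).2, k2, ?_, ?_, ?_, k5⟩
    · intro g x
      show (Representation.trivial ℤ G A).asModuleEquiv (ε (MonoidAlgebra.of ℤ G g • x)) =
        (Representation.trivial ℤ G A).asModuleEquiv (ε x)
      rw [map_smul, Representation.asModuleEquiv_map_smul]
      simp
    · exact (Representation.trivial ℤ G A).asModuleEquiv.surjective.comp k3
    · intro x
      rw [k4, LinearMap.mem_ker]
      show (Representation.trivial ℤ G A).asModuleEquiv (ε x) = 0 ↔ _
      constructor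
      · intro h
        apply (Representation.trivial ℤ G A).asModuleEquiv.injective
        rw [h, map_zero]
      · intro h
        rw [h, map_zero]

end Pool.Agent.K1H42.HE
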